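import Mathlib
import Pool.Agent.W757.BL.Asm

set_option autoImplicit false

namespace Pool.Agent.W72.BL.Gan

open Set Filter Topology
open scoped ContDiff
open Pool.Agent.W757.BL

theorem cs_cont {L : ℝ} {N : ℕ} (i : ℕ) : Continuous (fun u : Fin N → ℝ => cs L u i) := by
  cases i with
  | zero => exact continuous_const
  | succ i =>
    by_cases h : i < N
    · have : (fun u : Fin N → ℝ => cs L u (i + 1)) = fun u => u ⟨i, h⟩ := by
        funext u
        simp [cs, h]
      rw [this]
      exact continuous_apply _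
    · have : (fun u : Fin N → ℝ => cs L u (i + 1)) = fun _ => L := by
        funext u
        simp [cs, h]
      rw [this]
      exact continuous_const

theorem cs_succ {L : ℝ} {N : ℕ} (u : Fin N → ℝ) (i : Fin N) : cs L u (i.1 + 1) = u i := by
  simp [cs, i.2]

theorem cs_last {L : ℝ} {N : ℕ} (u : Fin N → ℝ) : cs L u (N + 1) = L := by
  simp [cs]

theorem cs_mono {L : ℝ} {N : ℕ} {u : Fin N → ℝ} (hu : u ∈ KK L N) {i j : ℕ} (hij : i ≤ j)
    (hj : j ≤ N + 1) : cs L u i ≤ cs L u j := by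
  induction j with
  | zero =>
    have : i = 0 := by omega
    rw [this]
  | succ j ih =>
    rcases Nat.lt_or_ge i (j + 1) with h | h
    · exact (ih (by omega) (by omega)).trans (hu j (by omega))
    · have : i = j + 1 := by omega
      rw [this]

theorem KK_compact (L : ℝ) (N : ℕ) : IsCompact (KK L N) := by
  have hcl : IsClosed (KK L N) := by
    have : KK L N = ⋂ i : ℕ, ⋂ _ : i ≤ N, {u : Fin N → ℝ | cs L u i ≤ cs L u (i + 1)} := by
      ext u
      simp [KK]
    rw [this]
    exact isClosed_iInter fun i => isClosed_iInter fun _ => isClosed_le (cs_cont i) (cs_cont _)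
  have hsub : KK L N ⊆ Set.pi univ (fun _ : Fin N => Icc 0 L) := by
    intro u hu i _
    have h1 := cs_mono hu (Nat.zero_le (i.1 + 1)) (by omega)
    have h2 := cs_mono hu (show i.1 + 1 ≤ N + 1 by omega) le_rfl
    rw [cs_succ] at h1 h2
    rw [cs_last] at h2
    exact ⟨h1, h2⟩
  exact (isCompact_univ_pi fun _ => isCompact_Icc).of_isClosed_subset hcl hsub

theorem PP_cont {x y : ℝ → ℝ} (hx : Continuous x) (hy : Continuous y) (L : ℝ) (N : ℕ) :
    Continuous (fun p : (ℝ × ℝ) × (Fin N → ℝ) =>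
      PP (fun s => p.1.1 * x s) y L p.1.2 p.2) := by
  unfold PP hh
  apply continuous_finsetSum
  intro i _
  apply Real.continuous_sqrt.comp
  have hc : ∀ i, Continuous fun p : (ℝ × ℝ) × (Fin N → ℝ) => p.1.2 + cs L p.2 i := fun i =>
    (continuous_snd.comp continuous_fst).add ((cs_cont i).comp continuous_snd)
  have ht : Continuous fun p : (ℝ × ℝ) × (Fin N → ℝ) => p.1.1 := continuous_fst.comp continuous_fst
  exact (((ht.mul (hx.comp (hc (i + 1)))).sub (ht.mul (hx.comp (hc i)))).pow 2).add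
    (((hy.comp (hc (i + 1))).sub (hy.comp (hc i))).pow 2)

theorem t_GAN (hCF : S_CF) (hEXM : S_EXM) (hCNV : S_CNV) (hAUB : S_AUB) (hPAN : S_PAN)
    (hND : S_ND) (hIFT : S_IFT) : S_GAN := by
  intro x y x' y' L N t hcv hxa hya hN ht hG a
  have hcvt := cv_stretch hcv ht
  have hcft := hCF _ _ _ _ L hcvt
  have hxc : Continuous x := continuous_iff_continuousAt.2 fun s => (hcv.dx s).continuousAt
  have hyc : Continuous y := continuous_iff_continuousAt.2 fun s => (hcv.dy s).continuousAt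
  have hPc := PP_cont hxc hyc L N
  have hPa : ∀ b, Continuous (fun u : Fin N → ℝ => PP (fun s => t * x s) y L b u) := fun b =>
    hPc.comp (continuous_const.prodMk continuous_id : Continuous fun u : Fin N → ℝ =>
      (((t, b) : ℝ × ℝ), u))
  have hbdd : ∀ b, BddAbove ((fun u : Fin N → ℝ => PP (fun s => t * x s) y L b u) '' KK L N) :=
    fun b => ((KK_compact L N).image (hPa b)).bddAbove
  obtain ⟨⟨u₀, hu₀, hmax⟩, hstr⟩ := hEXM _ _ _ _ L N hcvt hcft hN a
  have hstr₀ := hstr u₀ hu₀ hmax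
  have hm : PP (fun s => t * x s) y L a u₀ = GG x y L N t a := by
    unfold GG
    apply le_antisymm
    · exact le_csSup (hbdd a) ⟨u₀, hu₀, rfl⟩
    · refine csSup_le (Set.Nonempty.image _ ⟨u₀, hu₀⟩) ?_
      rintro _ ⟨v, hv, rfl⟩
      exact hmax v hv
  have hle : ∀ (b : ℝ) (v : Fin N → ℝ), v ∈ KK L N →
      PP (fun s => t * x s) y L b v ≤ GG x y L N t a := by
    intro b v hv
    rw [hG a b]
    exact le_csSup (hbdd b) ⟨v, hv, rfl⟩
  obtain ⟨hc1, hc2⟩ := hCNV _ _ _ _ L N hcvt hcft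
  have hSS : ∀ c, Pol L (N + 1) c → SS (fun s => t * x s) y (N + 1) c ≤ GG x y L N t a := by
    intro c hc
    obtain ⟨u, hu, -, -, h4⟩ := hc1 c hc
    rw [← h4]
    exact hle _ u hu
  have hxt : AnalyticOnNhd ℝ (fun s => t * x s) univ := fun s hs => by
    have h1 : AnalyticAt ℝ (fun _ : ℝ => t) s := analyticAt_const
    exact h1.mul (hxa s hs)
  refine hIFT N (fun p => PP (fun s => p.1.1 * x s) y L p.1.2 p.2) (KK L N) (t, a) u₀
    (KK_compact L N) ?_ hPc (hPAN x y x' y' L N hcv hxa hya hN t a u₀ ht hstr₀) hmax ?_ ?_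
  · rw [mem_interior]
    refine ⟨{u | ∀ i, i ≤ N → cs L u i < cs L u (i + 1)}, fun u hu i hi => (hu i hi).le, ?_,
      hstr₀⟩
    have : {u : Fin N → ℝ | ∀ i, i ≤ N → cs L u i < cs L u (i + 1)} =
        ⋂ i ∈ Finset.range (N + 1), {u : Fin N → ℝ | cs L u i < cs L u (i + 1)} := by
      ext u
      simp only [Set.mem_ofPred_eq, mem_iInter, Finset.mem_range]
      exact ⟨fun h i hi => h i (by omega), fun h i hi => h i (by omega)⟩
    rw [this]
    exact isOpen_biInter_finset fun i _ => isOpen_lt (cs_cont i) (cs_cont _)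
  · intro v hv hveq
    have hvmax : ∀ w ∈ KK L N, PP (fun s => t * x s) y L a w ≤ PP (fun s => t * x s) y L a v := by
      intro w hw
      have h1 : PP (fun s => t * x s) y L a v = PP (fun s => t * x s) y L a u₀ := hveq
      rw [h1]
      exact hmax w hw
    obtain ⟨c, hcP, hc3, hc4⟩ := hc2 a u₀ hstr₀
    obtain ⟨d, hdP, hd3, hd4⟩ := hc2 a v (hstr v hv hvmax)
    have hcm : SS (fun s => t * x s) y (N + 1) c = GG x y L N t a := by rw [← hc4, hm]
    have hdm : SS (fun s => t * x s) y (N + 1) d = GG x y L N t a := by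
      rw [← hd4, ← hm]
      exact hveq
    have h0 : c 0 = d 0 := by
      rw [hc3 0 (Nat.zero_le _), hd3 0 (Nat.zero_le _)]
      rfl
    have hcd := (hAUB _ _ _ _ L (N + 1) _ hcvt hcft (by omega) hSS c d hcP hcm hdP hdm).1 h0
    funext i
    have e1 := hc3 (i.1 + 1) (by omega)
    have e2 := hd3 (i.1 + 1) (by omega)
    rw [cs_succ] at e1 e2
    rw [hcd] at e1
    linarith
  · intro w hw
    exact hND _ _ _ _ L N hcvt hcft hxt hya hN _ hle a u₀ hstr₀ hm w hw

end Pool.Agent.W72.BL.Gan
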